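import Mathlib

/-!
# Sets all of whose coordinates are certified by few other coordinates

This is the coding argument of Paturi, Pudlak and Zane.
-/

set_option autoImplicit false

namespace Pool.Agent.R892.KC

open Finset

variable {V : Type} [DecidableEq V]

/-- The weight of a coordinate. -/
noncomputable def wt (T : (V → Bool) → V → Finset V) (U : Finset V) (x : V → Bool) (u : V) : ℝ :=
  1 / ((T x u ∩ U).card + 1)

theorem jensen {ι : Type} (U : Finset ι) (hU : U.Nonempty) (A : ι → ℝ) :
    (2 : ℝ) ^ ((∑ v ∈ U, A v) / U.card) ≤ (∑ v ∈ U, (2 : ℝ) ^ A v) / U.card := by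
  have hc : (0 : ℝ) < U.card := by exact_mod_cast hU.card_pos
  have h := (convexOn_rpow_left (b := 2) two_pos).map_sum_le (t := U) (w := fun _ => 1 / (U.card : ℝ))
    (p := A) (fun _ _ => by positivity) (by
      rw [Finset.sum_const, nsmul_eq_mul]
      field_simp) (fun _ _ => Set.mem_univ _)
  simp only [smul_eq_mul] at h
  rw [← Finset.mul_sum, ← Finset.mul_sum] at h
  rw [div_eq_mul_one_div, mul_comm, div_eq_mul_one_div (∑ v ∈ U, (2 : ℝ) ^ A v),
    mul_comm (∑ v ∈ U, (2 : ℝ) ^ A v)]
  exact h

/-- The weight after the first coordinate. -/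
noncomputable def aw (T : (V → Bool) → V → Finset V) (U : Finset V) (x : V → Bool) (v : V) : ℝ :=
  (if T x v ∩ U = ∅ then 1 else 0) + ∑ u ∈ U.erase v, wt T (U.erase v) x u

theorem sum_aw (T : (V → Bool) → V → Finset V) (U : Finset V) (x : V → Bool)
    (hT : ∀ u ∈ U, u ∉ T x u) : ∑ v ∈ U, aw T U x v = U.card * ∑ u ∈ U, wt T U x u := by
  classical
  unfold aw
  rw [Finset.sum_add_distrib]
  have h1 : ∑ v ∈ U, ∑ u ∈ U.erase v, wt T (U.erase v) x u =
      ∑ u ∈ U, ∑ v ∈ U.erase u, wt T (U.erase v) x u := by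
    rw [Finset.sum_comm' (t' := U) (s' := fun u => U.erase u)]
    intro a b
    simp only [mem_erase]
    tauto
  rw [h1, ← Finset.sum_add_distrib, Finset.mul_sum]
  refine Finset.sum_congr rfl fun u hu => ?_
  set t := T x u ∩ U with ht
  have hut : u ∉ t := fun h => hT u hu (mem_inter.1 h).1
  have htU : t ⊆ U.erase u := fun v hv => mem_erase.2 ⟨fun h => hut (h ▸ hv), (mem_inter.1 hv).2⟩
  have h2 : ∀ v ∈ U.erase u, wt T (U.erase v) x u =
      if v ∈ t then 1 / (t.card : ℝ) else 1 / (t.card + 1) := by
    intro v hv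
    unfold wt
    rw [inter_erase, ← ht]
    split
    · next h =>
      rw [card_erase_of_mem h]
      have : 1 ≤ t.card := card_pos.2 ⟨v, h⟩
      rw [Nat.cast_sub this]
      simp
    · next h => rw [erase_eq_of_notMem h]
  rw [Finset.sum_congr rfl h2, Finset.sum_ite, Finset.sum_const, Finset.sum_const]
  have h3 : (U.erase u).filter (fun v => v ∈ t) = t := by
    ext v
    simp only [mem_filter]
    exact ⟨fun h => h.2, fun h => ⟨htU h, h⟩⟩
  have h4 : ((U.erase u).filter (fun v => v ∉ t)).card = U.card - 1 - t.card := by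
    rw [Finset.filter_not, h3, card_sdiff_of_subset htU, card_erase_of_mem hu]
  have h5 : t.card + 1 ≤ U.card := by
    have := card_le_card htU
    rw [card_erase_of_mem hu] at this
    have : 1 ≤ U.card := card_pos.2 ⟨u, hu⟩
    omega
  rw [h3, h4, show wt T U x u = 1 / ((t.card : ℝ) + 1) from rfl, nsmul_eq_mul, nsmul_eq_mul,
    Nat.sub_sub, add_comm 1 t.card, Nat.cast_sub h5]
  push_cast
  by_cases h0 : t = ∅
  · rw [if_pos h0, h0]
    simp
  · rw [if_neg h0]
    have : (0 : ℝ) < t.card := by exact_mod_cast card_pos.2 (nonempty_iff_ne_empty.2 h0)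
    field_simp
    ring

theorem kraft (T : (V → Bool) → V → Finset V) : ∀ (m : ℕ) (U : Finset V), U.card = m →
    ∀ S : Finset (V → Bool), (∀ x ∈ S, ∀ y ∈ S, ∀ u, u ∉ U → y u = x u) →
    (∀ x ∈ S, ∀ u ∈ U, u ∉ T x u) →
    (∀ x ∈ S, ∀ u ∈ U, ∀ y ∈ S, (∀ t ∈ T x u, y t = x t) → y u = x u) →
    ∑ x ∈ S, (2 : ℝ) ^ (∑ u ∈ U, wt T U x u) ≤ 2 ^ m := by
  intro m
  induction m with
  | zero =>
    intro U hU S hag _ _
    rw [card_eq_zero] at hU
    subst hU
    simp only [sum_empty, Real.rpow_zero, sum_const, nsmul_eq_mul, mul_one, pow_zero]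
    have : S.card ≤ 1 := by
      rw [card_le_one]
      intro x hx y hy
      funext u
      exact (hag x hx y hy u (by simp)).symm
    exact_mod_cast this
  | succ m ih =>
    intro U hU S hag hT hcert
    have hUn : U.Nonempty := card_pos.1 (by omega)
    have hstep : ∀ v ∈ U, ∑ x ∈ S, (2 : ℝ) ^ aw T U x v ≤ 2 ^ (m + 1) := by
      intro v hv
      have hc : (U.erase v).card = m := by rw [card_erase_of_mem hv, hU]; rfl
      by_cases h0 : ∃ x ∈ S, T x v ∩ U = ∅
      · obtain ⟨x, hx, hxe⟩ := h0
        have hall : ∀ y ∈ S, y v = x v := by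
          intro y hy
          refine hcert x hx v hv y hy fun t ht => hag x hx y hy t fun htU => ?_
          exact absurd (mem_inter.2 ⟨ht, htU⟩) (by rw [hxe]; simp)
        have h1 := ih (U.erase v) hc S (fun x' hx' y hy u hu => by
            by_cases huv : u = v
            · subst huv
              rw [hall y hy, hall x' hx']
            · exact hag x' hx' y hy u fun h => hu (mem_erase.2 ⟨huv, h⟩))
          (fun x' hx' u hu => hT x' hx' u (mem_of_mem_erase hu))
          (fun x' hx' u hu => hcert x' hx' u (mem_of_mem_erase hu))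
        calc ∑ x ∈ S, (2 : ℝ) ^ aw T U x v
            ≤ ∑ x ∈ S, 2 * (2 : ℝ) ^ (∑ u ∈ U.erase v, wt T (U.erase v) x u) := by
              refine sum_le_sum fun y _ => ?_
              unfold aw
              rw [Real.rpow_add two_pos]
              refine mul_le_mul_of_nonneg_right ?_ (by positivity)
              split <;> norm_num
          _ = 2 * ∑ x ∈ S, (2 : ℝ) ^ (∑ u ∈ U.erase v, wt T (U.erase v) x u) := by
              rw [mul_sum]
          _ ≤ 2 * 2 ^ m := by gcongr
          _ = 2 ^ (m + 1) := by ring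
      · push Not at h0
        have hsplit : ∀ b : Bool, ∑ x ∈ S.filter (fun x => x v = b),
            (2 : ℝ) ^ (∑ u ∈ U.erase v, wt T (U.erase v) x u) ≤ 2 ^ m := by
          intro b
          refine ih (U.erase v) hc _ ?_ ?_ ?_
          · intro x hx y hy u hu
            rw [mem_filter] at hx hy
            by_cases huv : u = v
            · subst huv
              rw [hx.2, hy.2]
            · exact hag x hx.1 y hy.1 u fun h => hu (mem_erase.2 ⟨huv, h⟩)
          · intro x hx u hu
            exact hT x (mem_filter.1 hx).1 u (mem_of_mem_erase hu)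
          · intro x hx u hu y hy
            exact hcert x (mem_filter.1 hx).1 u (mem_of_mem_erase hu) y (mem_filter.1 hy).1
        have h2 : ∑ x ∈ S, (2 : ℝ) ^ aw T U x v =
            ∑ x ∈ S, (2 : ℝ) ^ (∑ u ∈ U.erase v, wt T (U.erase v) x u) := by
          refine sum_congr rfl fun x hx => ?_
          unfold aw
          rw [if_neg (nonempty_iff_ne_empty.1 (h0 x hx)), zero_add]
        rw [h2, ← sum_filter_add_sum_filter_not S (fun x => x v = true)]
        have h3 : S.filter (fun x => ¬ x v = true) = S.filter (fun x => x v = false) := by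
          ext x
          simp
        rw [h3]
        calc _ ≤ (2 : ℝ) ^ m + 2 ^ m := add_le_add (hsplit true) (hsplit false)
          _ = 2 ^ (m + 1) := by ring
    have hc : (0 : ℝ) < U.card := by exact_mod_cast hUn.card_pos
    calc ∑ x ∈ S, (2 : ℝ) ^ (∑ u ∈ U, wt T U x u)
        ≤ ∑ x ∈ S, (∑ v ∈ U, (2 : ℝ) ^ aw T U x v) / U.card := by
          refine sum_le_sum fun x hx => ?_
          have := jensen U hUn fun v => aw T U x v
          rw [sum_aw T U x (hT x hx), mul_div_cancel_left₀ _ hc.ne'] at this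
          exact this
      _ = (∑ v ∈ U, ∑ x ∈ S, (2 : ℝ) ^ aw T U x v) / U.card := by
          rw [← sum_div, sum_comm]
      _ ≤ (∑ v ∈ U, (2 : ℝ) ^ (m + 1)) / U.card := by
          gcongr with v hv
          exact hstep v hv
      _ = 2 ^ (m + 1) := by
          rw [sum_const, nsmul_eq_mul]
          field_simp

/-- **Coding lemma.** If in every member `x` of `S` the value of every coordinate `u` is determined by
at most `k - 1` other coordinates (in `S`), then `S` has at most `2 ^ (n - n / k)` members. -/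
theorem card_le [Fintype V] {k : ℕ} (hk : 1 ≤ k) (S : Finset (V → Bool))
    (T : (V → Bool) → V → Finset V) (hT : ∀ x ∈ S, ∀ u, u ∉ T x u ∧ (T x u).card + 1 ≤ k)
    (hcert : ∀ x ∈ S, ∀ u, ∀ y ∈ S, (∀ t ∈ T x u, y t = x t) → y u = x u) :
    (S.card : ℝ) * 2 ^ ((Fintype.card V : ℝ) / k) ≤ 2 ^ (Fintype.card V) := by
  have h := kraft T _ univ rfl S (fun x _ y _ u hu => absurd (mem_univ u) hu)
    (fun x hx u _ => (hT x hx u).1) (fun x hx u _ => hcert x hx u)
  rw [← Finset.card_univ]
  refine le_trans ?_ h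
  rw [← nsmul_eq_mul, ← sum_const]
  refine sum_le_sum fun x hx => ?_
  refine Real.rpow_le_rpow_of_exponent_le (by norm_num) ?_
  have hk' : (0 : ℝ) < k := by exact_mod_cast hk
  calc (((univ : Finset V).card : ℝ)) / k = ∑ u : V, (1 : ℝ) / k := by
        rw [sum_const, nsmul_eq_mul]
        ring
    _ ≤ _ := by
        refine sum_le_sum fun u _ => ?_
        unfold wt
        rw [inter_univ]
        have : ((T x u).card : ℝ) + 1 ≤ k := by exact_mod_cast (hT x hx u).2
        exact one_div_le_one_div_of_le (by positivity) this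

end Pool.Agent.R892.KC
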