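import Pool.Agent.R892.KC.GI

/-!
# Graph isomorphism as a disjunction of `k`-CNFs: the bounds
-/

set_option autoImplicit false

namespace Pool.Agent.R892.KC

open Finset

/-- The explicit bound. -/
theorem explicit {k n : ℕ} (hk : 1 ≤ k) (hn : 16 ≤ n) {ι : Type} [Fintype ι]
    (F : ι → CNF (Bool × Sym2 (Fin n))) (hF : ∀ i, (F i).Width k)
    (h : ∀ G H : SimpleGraph (Fin n), Nonempty (G ≃g H) ↔ ∃ i, (F i).Sat (bitsOf G H)) :
    (n : ℝ) ^ ((2 * (n - (Nat.log 2 n + 2) : ℕ) : ℝ) / k) ≤ 48 ^ n * Fintype.card ι := by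
  set l := Nat.log 2 n + 2 with hl
  set N := n - l with hN
  have hlog : 2 ^ Nat.log 2 n ≤ n := Nat.pow_log_le_self 2 (by omega)
  have hlog' : n < 2 ^ (Nat.log 2 n + 1) := Nat.lt_pow_succ_log_self (by norm_num) n
  set Q := 2 ^ l with hQ
  have hQ1 : Q = 4 * 2 ^ Nat.log 2 n := by rw [hQ, hl, pow_add]; ring
  have hQ2 : 2 * n < Q := by rw [hQ1]; rw [pow_succ] at hlog'; omega
  have hQ3 : Q ≤ 4 * n := by omega
  have hl2 : 2 * l ≤ n := by
    have h1 : Nat.log 2 n < 4 ∨ 4 ≤ Nat.log 2 n := lt_or_ge _ _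
    rcases h1 with h1 | h1
    · have : Nat.log 2 n + 2 ≤ 5 := by omega
      rw [hl]; omega
    · have : ∀ a : ℕ, 4 ≤ a → 2 * (a + 2) ≤ 2 ^ a := by
        intro a ha
        induction a, ha using Nat.le_induction with
        | base => norm_num
        | succ a _ ih => rw [pow_succ]; omega
      exact (this _ h1).trans hlog
  have hNl : N + l = n := by omega
  have h2N : n ≤ 2 * N := by omega
  have hNn : N ≤ n := by omega
  have key : (((2 ^ l).descFactorial N * N.factorial : ℕ) : ℝ) * 2 ^ ((2 * (N * l) : ℝ) / k) ≤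
      Fintype.card ι * 2 ^ (2 * (N * l)) := by
    have : ∀ n' (e : N + l = n'), (∀ (F : ι → CNF (Bool × Sym2 (Fin n'))),
        (∀ i, (F i).Width k) →
        (∀ G H : SimpleGraph (Fin n'), Nonempty (G ≃g H) ↔ ∃ i, (F i).Sat (bitsOf G H)) →
        (((2 ^ l).descFactorial N * N.factorial : ℕ) : ℝ) * 2 ^ ((2 * (N * l) : ℝ) / k) ≤
        Fintype.card ι * 2 ^ (2 * (N * l))) := by
      rintro _ rfl F hF h
      exact count hk F hF h
    exact this n hNl F hF h
  have hn0 : (0 : ℝ) < n := by exact_mod_cast (show 0 < n by omega)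
  have hQ0 : (0 : ℝ) < Q := by rw [hQ]; positivity
  have hk0 : (0 : ℝ) < k := by exact_mod_cast hk
  -- the two factors
  have f1 : ((Q : ℝ) / 2) ^ N ≤ ((2 ^ l).descFactorial N : ℕ) := by
    have e1 := Nat.pow_sub_le_descFactorial Q N
    have e2 : (Q : ℝ) / 2 ≤ (Q + 1 - N : ℕ) := by
      rw [Nat.cast_sub (by omega)]
      have e3 : (N : ℝ) ≤ n := by exact_mod_cast hNn
      have e4 : (2 : ℝ) * n ≤ Q := by exact_mod_cast hQ2.le
      push_cast
      linarith
    calc ((Q : ℝ) / 2) ^ N ≤ ((Q + 1 - N : ℕ) : ℝ) ^ N := by gcongr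
      _ ≤ _ := by exact_mod_cast e1
  have f2 : ((n : ℝ) / 6) ^ N ≤ N.factorial := by
    have e1 := Real.pow_div_factorial_le_exp (N : ℝ) (by positivity) N
    have e2 : (0 : ℝ) < N.factorial := by exact_mod_cast N.factorial_pos
    rw [div_le_iff₀ e2] at e1
    have e3 : Real.exp (N : ℝ) ≤ 3 ^ N := by
      have := Real.exp_one_lt_d9
      calc Real.exp (N : ℝ) = Real.exp 1 ^ N := by rw [← Real.exp_nat_mul, mul_one]
        _ ≤ 3 ^ N := by gcongr; linarith
    have e4 : (n : ℝ) ≤ 2 * N := by exact_mod_cast h2N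
    calc ((n : ℝ) / 6) ^ N ≤ ((N : ℝ) / 3) ^ N := by gcongr ?_ ^ N; linarith
      _ = (N : ℝ) ^ N / 3 ^ N := by rw [div_pow]
      _ ≤ (Real.exp N * N.factorial) / 3 ^ N := by gcongr
      _ ≤ (3 ^ N * N.factorial) / 3 ^ N := by gcongr
      _ = _ := by field_simp
  have f3 : (2 : ℝ) ^ ((2 * (N * l) : ℝ) / k) = (Q : ℝ) ^ ((2 * N : ℝ) / k) := by
    rw [hQ]
    push_cast
    rw [← Real.rpow_natCast 2 l, ← Real.rpow_mul (by norm_num)]
    congr 1
    ring
  have f4 : (2 : ℝ) ^ (2 * (N * l)) = (Q : ℝ) ^ N * (Q : ℝ) ^ N := by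
    rw [hQ]
    push_cast
    rw [← pow_mul, ← pow_add]
    congr 1
    ring
  rw [f3, f4] at key
  push_cast at key
  have g1 : (n : ℝ) ^ ((2 * N : ℝ) / k) ≤ (Q : ℝ) ^ ((2 * N : ℝ) / k) := by
    refine Real.rpow_le_rpow hn0.le ?_ (by positivity)
    exact_mod_cast (show n ≤ Q by omega)
  have g2 : ((Q : ℝ) / 2) ^ N * ((n : ℝ) / 6) ^ N * (n : ℝ) ^ ((2 * N : ℝ) / k) ≤
      Fintype.card ι * ((Q : ℝ) ^ N * (Q : ℝ) ^ N) := by
    refine le_trans ?_ key
    gcongr
  have g3 : (Q : ℝ) ^ N ≤ (4 * n) ^ N := by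
    gcongr
    exact_mod_cast hQ3
  have g4 : ((Q : ℝ) / 2) ^ N * ((n : ℝ) / 6) ^ N * (n : ℝ) ^ ((2 * N : ℝ) / k) ≤
      Fintype.card ι * ((Q : ℝ) ^ N * (4 * n) ^ N) := by
    refine g2.trans ?_
    gcongr
  have g5 : (Q : ℝ) ^ N * (n : ℝ) ^ N * (n : ℝ) ^ ((2 * N : ℝ) / k) ≤
      (Q : ℝ) ^ N * (n : ℝ) ^ N * (48 ^ N * Fintype.card ι) := by
    have e1 : ((Q : ℝ) / 2) ^ N * ((n : ℝ) / 6) ^ N = (Q : ℝ) ^ N * (n : ℝ) ^ N / 12 ^ N := by
      rw [← mul_pow, ← mul_pow, ← div_pow]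
      congr 1
      ring
    have e2 : (4 * (n : ℝ)) ^ N = 4 ^ N * (n : ℝ) ^ N := by rw [mul_pow]
    have e3 : (48 : ℝ) ^ N = 12 ^ N * 4 ^ N := by rw [← mul_pow]; norm_num
    rw [e1, e2, div_mul_eq_mul_div, div_le_iff₀ (by positivity)] at g4
    rw [e3]
    linarith
  have g6 := le_of_mul_le_mul_left g5 (by positivity)
  refine g6.trans ?_
  gcongr
  norm_num

theorem asym (k : ℕ) (hk : 1 ≤ k) (ε : ℝ) (hε : 0 < ε) : ∃ n₀ : ℕ, ∀ n ≥ n₀,
    ∀ (ι : Type) [Fintype ι] (F : ι → CNF (Bool × Sym2 (Fin n))), (∀ i, (F i).Width k) →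
    (∀ G H : SimpleGraph (Fin n), Nonempty (G ≃g H) ↔ ∃ i, (F i).Sat (bitsOf G H)) →
    (n : ℝ) ^ ((2 / k - ε) * n) ≤ Fintype.card ι := by
  have h1 : ∀ᶠ n : ℕ in Filter.atTop, 2 * Real.log 48 / ε ≤ Real.log n :=
    (Real.tendsto_log_atTop.comp tendsto_natCast_atTop_atTop).eventually_ge_atTop _
  have h2 : ∀ᶠ n : ℕ in Filter.atTop, Real.log n ≤ (ε * Real.log 2 / 8) * n := by
    have := (Real.isLittleO_log_id_atTop.comp_tendsto tendsto_natCast_atTop_atTop).def
      (show 0 < ε * Real.log 2 / 8 by have := Real.log_pos one_lt_two; positivity)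
    filter_upwards [this] with n hn
    simp only [Function.comp, id, Real.norm_eq_abs] at hn
    exact (le_abs_self _).trans (by rwa [abs_of_nonneg (Nat.cast_nonneg (α := ℝ) n)] at hn)
  have h3 : ∀ᶠ n : ℕ in Filter.atTop, 16 / ε ≤ (n : ℝ) :=
    tendsto_natCast_atTop_atTop.eventually_ge_atTop _
  obtain ⟨n₀, h⟩ := Filter.eventually_atTop.1 (h1.and (h2.and (h3.and
    (Filter.eventually_ge_atTop 16))))
  refine ⟨n₀, fun n hn ι _ F hF hGI => ?_⟩
  obtain ⟨a1, a2, a3, a4⟩ := h n hn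
  have key := explicit hk a4 F hF hGI
  have hn0 : (0 : ℝ) < n := by exact_mod_cast (show 0 < n by omega)
  have hk0 : (1 : ℝ) ≤ k := by exact_mod_cast hk
  have hL2 := Real.log_pos one_lt_two
  set l := Nat.log 2 n + 2 with hl
  have hln : l ≤ n := by
    have : Nat.log 2 n < n := Nat.log_lt_self 2 (by omega)
    by_contra hc
    have h5 : n ≤ Nat.log 2 n + 1 := by omega
    have h6 : 2 ^ Nat.log 2 n ≤ n := Nat.pow_log_le_self 2 (by omega)
    have h7 : ∀ a : ℕ, 2 ≤ a → a + 1 < 2 ^ a := by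
      intro a ha
      induction a, ha using Nat.le_induction with
      | base => norm_num
      | succ a _ ih => rw [pow_succ]; omega
    have h8 : 2 ≤ Nat.log 2 n := by omega
    have := h7 _ h8
    omega
  have hlog : (Nat.log 2 n : ℝ) * Real.log 2 ≤ Real.log n := by
    rw [← Real.log_pow]
    refine Real.log_le_log (by positivity) ?_
    exact_mod_cast Nat.pow_log_le_self 2 (by omega)
  have hl1 : 2 * (l : ℝ) ≤ ε / 2 * n := by
    have e1 : (Nat.log 2 n : ℝ) ≤ ε / 8 * n := by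
      have : (Nat.log 2 n : ℝ) * Real.log 2 ≤ (ε / 8 * n) * Real.log 2 := by
        calc _ ≤ _ := hlog
          _ ≤ _ := a2
          _ = _ := by ring
      exact le_of_mul_le_mul_right this hL2
    have e2 : 16 ≤ ε * n := by
      rw [div_le_iff₀ hε] at a3
      linarith
    rw [hl]
    push_cast
    linarith
  have hlogn : 0 < Real.log n := Real.log_pos (by exact_mod_cast (show 1 < n by omega))
  have hmain : (n : ℝ) ^ ((2 / k - ε) * n) * 48 ^ n ≤
      (n : ℝ) ^ ((2 * (n - l : ℕ) : ℝ) / k) := by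
    rw [← Real.log_le_log_iff (by positivity) (by positivity), Real.log_mul (by positivity)
      (by positivity), Real.log_rpow hn0, Real.log_rpow hn0, Real.log_pow, Nat.cast_sub hln]
    have e1 : 2 * Real.log 48 ≤ ε * Real.log n := by
      rw [div_le_iff₀ hε] at a1
      linarith
    have e2 : (n : ℝ) * Real.log 48 ≤ n * (ε / 2 * Real.log n) := by
      gcongr
      linarith
    have e3 : 2 / (k : ℝ) * l ≤ ε / 2 * n := by
      refine le_trans ?_ hl1
      gcongr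
      exact div_le_self (by norm_num) hk0
    have e4 : 2 / (k : ℝ) * l * Real.log n ≤ ε / 2 * n * Real.log n := by gcongr
    have e5 : (2 * ((n : ℝ) - l)) / k * Real.log n = 2 / k * n * Real.log n -
        2 / k * l * Real.log n := by ring
    rw [e5]
    linarith
  have h48 : (0 : ℝ) < 48 ^ n := by positivity
  have := hmain.trans key
  rw [mul_comm] at this
  exact le_of_mul_le_mul_left this h48

/-- The restriction of a formula by values of the auxiliary variables. -/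
def CNF.restrict {X Y : Type} [DecidableEq X] [DecidableEq Y] (F : CNF (X ⊕ Y)) (y : Y → Bool) :
    CNF X :=
  {D | ∃ C ∈ F, (∀ l ∈ C, ∀ j, l.1 = Sum.inr j → y j ≠ l.2) ∧
    D = C.preimage (Prod.map Sum.inl id) (Function.Injective.injOn
      (Function.Injective.prodMap Sum.inl_injective Function.injective_id))}

theorem restrict_width {X Y : Type} [DecidableEq X] [DecidableEq Y] {F : CNF (X ⊕ Y)} {k : ℕ}
    (hF : F.Width k) (y : Y → Bool) : (F.restrict y).Width k := by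
  rintro D ⟨C, hC, -, rfl⟩
  refine le_trans ?_ (hF C hC)
  refine card_le_card_of_injOn (Prod.map Sum.inl id) (fun l hl => mem_preimage.1 hl)
    (Function.Injective.injOn
      (Function.Injective.prodMap Sum.inl_injective Function.injective_id))

theorem restrict_sat {X Y : Type} [DecidableEq X] [DecidableEq Y] {F : CNF (X ⊕ Y)}
    (y : Y → Bool) (z : X → Bool) : (F.restrict y).Sat z ↔ F.Sat (Sum.elim z y) := by
  constructor
  · intro h C hC
    by_cases hy : ∀ l ∈ C, ∀ j, l.1 = Sum.inr j → y j ≠ l.2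
    · obtain ⟨l, hl, h1⟩ := h _ ⟨C, hC, hy, rfl⟩
      exact ⟨_, mem_preimage.1 hl, h1⟩
    · push Not at hy
      obtain ⟨l, hl, j, h1, h2⟩ := hy
      refine ⟨l, hl, ?_⟩
      rw [h1]
      exact h2
  · rintro h D ⟨C, hC, hy, rfl⟩
    obtain ⟨⟨v, b⟩, hl, h1⟩ := h C hC
    rcases v with v | j
    · exact ⟨(v, b), mem_preimage.2 hl, h1⟩
    · exact absurd h1 (hy _ hl j rfl)

end Pool.Agent.R892.KC
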