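import Pool.Agent.R892.KC.Code

/-!
# Graph isomorphism as a disjunction of `k`-CNFs
-/

set_option autoImplicit false

namespace Pool.Agent.R892.KC

open Finset

/-- A formula in conjunctive normal form over the variables `X`, given by its clauses; the literal
`(v, b)` says that `v` has the value `b`. -/
abbrev CNF (X : Type) : Type := Set (Finset (X × Bool))

/-- All clauses have at most `k` literals. -/
def CNF.Width {X : Type} (F : CNF X) (k : ℕ) : Prop := ∀ C ∈ F, C.card ≤ k

/-- The assignment `z` satisfies the formula: each clause contains a literal which is true. -/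
def CNF.Sat {X : Type} (F : CNF X) (z : X → Bool) : Prop := ∀ C ∈ F, ∃ l ∈ C, z l.1 = l.2

open Classical in
/-- The bits of a pair of graphs on `n` vertices: one bit for each of the two graphs and each
unordered pair of vertices. -/
noncomputable def bitsOf {n : ℕ} (G H : SimpleGraph (Fin n)) : Bool × Sym2 (Fin n) → Bool :=
  fun e => decide (e.2 ∈ (if e.1 then H else G).edgeSet)

section Gen

variable {V X : Type} [Fintype V] [DecidableEq V] [DecidableEq X]

/-- The value of the variable `v` is changed. -/
def flip (x : V → Bool) (v : V) : V → Bool := Function.update x v (!x v)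

/-- A restriction of a `k`-CNF all of whose solutions (among those in `A`) are isolated. -/
theorem card_sat_le {k : ℕ} (hk : 1 ≤ k) (F : CNF X) (hF : F.Width k) (vr : V → X)
    (hvr : Function.Injective vr) (ext : (V → Bool) → X → Bool) (hext : ∀ x v, ext x (vr v) = x v)
    (hconst : ∀ x y e, (∀ v, vr v ≠ e) → ext x e = ext y e) (A : Finset (V → Bool))
    (hA : ∀ x ∈ A, F.Sat (ext x)) (hiso : ∀ x ∈ A, ∀ v, ¬ F.Sat (ext (flip x v))) :
    (A.card : ℝ) * 2 ^ ((Fintype.card V : ℝ) / k) ≤ 2 ^ (Fintype.card V) := by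
  classical
  have hC : ∀ x v, ∃ C : Finset (X × Bool), x ∈ A →
      C ∈ F ∧ ∀ l ∈ C, ¬ ext (flip x v) l.1 = l.2 := by
    intro x v
    by_cases hx : x ∈ A
    · have := hiso x hx v
      unfold CNF.Sat at this
      push Not at this
      obtain ⟨C, h1, h2⟩ := this
      exact ⟨C, fun _ => ⟨h1, h2⟩⟩
    · exact ⟨∅, fun h => absurd h hx⟩
  choose C hC using hC
  let T : (V → Bool) → V → Finset V := fun x v =>
    univ.filter fun u => u ≠ v ∧ ∃ l ∈ C x v, l.1 = vr u
  have hv : ∀ x ∈ A, ∀ v, ∃ l ∈ C x v, l.1 = vr v := by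
    intro x hx v
    obtain ⟨h1, h2⟩ := hC x v hx
    obtain ⟨l, hl, h3⟩ := hA x hx _ h1
    refine ⟨l, hl, ?_⟩
    by_contra hne
    apply h2 l hl
    rw [← h3]
    by_cases hu : ∃ u, vr u = l.1
    · obtain ⟨u, hu⟩ := hu
      rw [← hu, hext, hext]
      unfold flip
      rw [Function.update_of_ne]
      rintro rfl
      exact hne hu.symm
    · push Not at hu
      exact hconst _ _ _ hu
  refine card_le hk A T ?_ ?_
  · intro x hx v
    refine ⟨by simp [T], ?_⟩
    have h1 : (insert v (T x v)).card = (T x v).card + 1 := card_insert_of_notMem (by simp [T])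
    rw [← h1, ← card_image_of_injective _ hvr]
    refine le_trans ?_ (hF _ (hC x v hx).1)
    refine le_trans (card_le_card (t := (C x v).image Prod.fst) ?_) card_image_le
    intro e he
    obtain ⟨u, hu, rfl⟩ := mem_image.1 he
    rw [mem_image]
    rcases mem_insert.1 hu with rfl | hu
    · exact hv x hx u
    · exact (mem_filter.1 hu).2.2
  · intro x hx v y hy hag
    by_contra hne
    obtain ⟨h1, h2⟩ := hC x v hx
    obtain ⟨l, hl, h3⟩ := hA y hy _ h1
    apply h2 l hl
    rw [← h3]
    by_cases hu : ∃ u, vr u = l.1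
    · obtain ⟨u, hu⟩ := hu
      rw [← hu, hext, hext]
      unfold flip
      by_cases huv : u = v
      · subst huv
        rw [Function.update_self]
        revert hne
        cases x u <;> cases y u <;> simp
      · rw [Function.update_of_ne huv]
        exact (hag u (mem_filter.2 ⟨mem_univ _, huv, l, hl, hu.symm⟩)).symm
    · push Not at hu
      exact hconst _ _ _ hu

end Gen

/-! ### The graphs -/

variable {N l : ℕ}

/-- The bipartite graph with the given adjacencies. -/
def bg (N l : ℕ) (y : Fin N × Fin l → Bool) : SimpleGraph (Fin (N + l)) where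
  Adj u v := ∃ i j, y (i, j) = true ∧ ((u = Fin.castAdd l i ∧ v = Fin.natAdd N j) ∨
    (v = Fin.castAdd l i ∧ u = Fin.natAdd N j))
  symm := ⟨fun _ _ ⟨i, j, h, h'⟩ => ⟨i, j, h, h'.symm⟩⟩
  loopless := ⟨by
    rintro u ⟨i, j, -, ⟨h1, h2⟩ | ⟨h1, h2⟩⟩
    · have h3 := congrArg Fin.val (h1.symm.trans h2)
      simp at h3
      omega
    · have h3 := congrArg Fin.val (h1.symm.trans h2)
      simp at h3
      omega⟩

/-- The pair of vertices of a variable. -/
def pr (v : Fin N × Fin l) : Sym2 (Fin (N + l)) := s(Fin.castAdd l v.1, Fin.natAdd N v.2)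

theorem pr_injective : Function.Injective (pr (N := N) (l := l)) := by
  rintro ⟨i, j⟩ ⟨i', j'⟩ h
  simp only [pr, Sym2.eq_iff] at h
  rcases h with ⟨h1, h2⟩ | ⟨h1, h2⟩
  · rw [Fin.castAdd_injective _ _ h1, Fin.natAdd_injective _ _ h2]
  · have := congrArg Fin.val h1
    simp at this
    omega

theorem mem_bg (y : Fin N × Fin l → Bool) (e : Sym2 (Fin (N + l))) :
    e ∈ (bg N l y).edgeSet ↔ ∃ v, y v = true ∧ pr v = e := by
  induction e with
  | _ u w =>
    rw [SimpleGraph.mem_edgeSet]
    constructor
    · rintro ⟨i, j, h, ⟨rfl, rfl⟩ | ⟨rfl, rfl⟩⟩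
      · exact ⟨(i, j), h, rfl⟩
      · exact ⟨(i, j), h, Sym2.eq_swap⟩
    · rintro ⟨⟨i, j⟩, h, h'⟩
      simp only [pr, Sym2.eq_iff] at h'
      exact ⟨i, j, h, h'.imp (fun h => ⟨h.1.symm, h.2.symm⟩) (fun h => ⟨h.1.symm, h.2.symm⟩)⟩

/-- The number of edges. -/
theorem ncard_bg (y : Fin N × Fin l → Bool) :
    (bg N l y).edgeSet.ncard = (univ.filter fun v => y v = true).card := by
  classical
  have : (bg N l y).edgeSet = ((univ.filter fun v => y v = true).image pr : Finset _) := by
    ext e
    rw [mem_bg]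
    simp
  rw [this, Set.ncard_coe_finset, card_image_of_injective _ pr_injective]

theorem ncard_of_iso {n : ℕ} {G H : SimpleGraph (Fin n)} (h : Nonempty (G ≃g H)) :
    G.edgeSet.ncard = H.edgeSet.ncard := by
  obtain ⟨e⟩ := h
  exact Set.ncard_congr' e.mapEdgeSet

/-- The variables. -/
abbrev Vr (N l : ℕ) : Type := Bool × Fin N × Fin l

/-- The two graphs of an assignment. -/
def hf (x : Vr N l → Bool) (b : Bool) : Fin N × Fin l → Bool := fun v => x (b, v)

/-- The variable. -/
def vr (v : Vr N l) : Bool × Sym2 (Fin (N + l)) := (v.1, pr v.2)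

/-- The bits. -/
noncomputable def ext (x : Vr N l → Bool) : Bool × Sym2 (Fin (N + l)) → Bool :=
  bitsOf (bg N l (hf x false)) (bg N l (hf x true))

theorem vr_injective : Function.Injective (vr (N := N) (l := l)) := by
  rintro ⟨b, v⟩ ⟨b', v'⟩ h
  simp only [vr, Prod.mk.injEq] at h
  rw [h.1, pr_injective h.2]

theorem ext_apply (x : Vr N l → Bool) (b : Bool) (e : Sym2 (Fin (N + l))) :
    ext x (b, e) = true ↔ ∃ v, x (b, v) = true ∧ pr v = e := by
  classical
  rw [show ext x (b, e) = decide (e ∈ (if b then bg N l (hf x true) else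
    bg N l (hf x false)).edgeSet) from by unfold ext bitsOf; congr, decide_eq_true_iff]
  cases b
  · exact mem_bg _ _
  · exact mem_bg _ _

theorem ext_vr (x : Vr N l → Bool) (v : Vr N l) : ext x (vr v) = x v := by
  rw [Bool.eq_iff_iff]
  rcases v with ⟨b, v⟩
  unfold vr
  rw [ext_apply]
  constructor
  · rintro ⟨w, h, h'⟩
    rwa [pr_injective h'] at h
  · exact fun h => ⟨v, h, rfl⟩

theorem ext_const (x y : Vr N l → Bool) (e : Bool × Sym2 (Fin (N + l)))
    (he : ∀ v : Vr N l, vr v ≠ e) : ext x e = ext y e := by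
  have : ∀ x : Vr N l → Bool, ext x e = false := by
    intro x
    rw [← Bool.not_eq_true]
    rcases e with ⟨b, e⟩
    rw [ext_apply]
    rintro ⟨v, -, rfl⟩
    exact he (b, v) rfl
  rw [this, this]

/-- The pairs of graphs in which the rows of the second one are those of the first one, in some
order. -/
def emb (p : (Fin N ↪ (Fin l → Bool)) × Equiv.Perm (Fin N)) : Vr N l → Bool
  | (false, i, j) => p.1 i j
  | (true, i, j) => p.1 (p.2 i) j

theorem emb_injective : Function.Injective (emb (N := N) (l := l)) := by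
  rintro ⟨a, π⟩ ⟨a', π'⟩ h
  have h1 : a = a' := by
    ext i j
    exact congrFun h (false, i, j)
  subst h1
  refine Prod.ext rfl (Equiv.ext fun i => a.injective ?_)
  funext j
  exact congrFun h (true, i, j)

/-- The family of assignments. -/
noncomputable def fam (N l : ℕ) : Finset (Vr N l → Bool) := by
  classical
  exact (univ : Finset ((Fin N ↪ (Fin l → Bool)) × Equiv.Perm (Fin N))).image emb

theorem card_fam : (fam N l).card = (2 ^ l).descFactorial N * N.factorial := by
  classical
  unfold fam
  rw [card_image_of_injective _ emb_injective, card_univ, Fintype.card_prod,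
    Fintype.card_embedding_eq, Fintype.card_perm]
  simp

theorem fam_iso {x : Vr N l → Bool} (hx : x ∈ fam N l) :
    Nonempty (bg N l (hf x false) ≃g bg N l (hf x true)) := by
  classical
  unfold fam at hx
  obtain ⟨⟨a, π⟩, -, rfl⟩ := mem_image.1 hx
  let e : Fin (N + l) ≃ Fin (N + l) :=
    finSumFinEquiv.symm.trans ((Equiv.sumCongr π.symm (Equiv.refl _)).trans finSumFinEquiv)
  have e1 : ∀ i : Fin N, e (Fin.castAdd l i) = Fin.castAdd l (π.symm i) := fun i => by simp [e]
  have e2 : ∀ j : Fin l, e (Fin.natAdd N j) = Fin.natAdd N j := fun j => by simp [e]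
  have e3 : ∀ u i, e u = Fin.castAdd l i ↔ u = Fin.castAdd l (π i) := by
    intro u i
    rw [show Fin.castAdd l i = e (Fin.castAdd l (π i)) by rw [e1, Equiv.symm_apply_apply],
      e.injective.eq_iff]
  have e4 : ∀ u j, e u = Fin.natAdd N j ↔ u = Fin.natAdd N j := by
    intro u j
    conv_lhs => rw [← e2 j]
    rw [e.injective.eq_iff]
  refine ⟨⟨e, ?_⟩⟩
  intro u v
  show (∃ i j, _ ∧ _) ↔ ∃ i j, _ ∧ _
  simp only [e3, e4, hf, emb]
  constructor
  · rintro ⟨i, j, h, h'⟩
    exact ⟨π i, j, h, h'⟩
  · rintro ⟨i, j, h, h'⟩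
    refine ⟨π.symm i, j, ?_, ?_⟩
    · rw [Equiv.apply_symm_apply]; exact h
    · rw [Equiv.apply_symm_apply]; exact h'

theorem flip_not_iso {x : Vr N l → Bool} (hx : x ∈ fam N l) (v : Vr N l) :
    ¬ Nonempty (bg N l (hf (flip x v) false) ≃g bg N l (hf (flip x v) true)) := by
  classical
  intro h
  have h1 := ncard_of_iso h
  have h2 := ncard_of_iso (fam_iso hx)
  rw [ncard_bg, ncard_bg] at h1 h2
  rcases v with ⟨b, v⟩
  have hne : hf (flip x (b, v)) (!b) = hf x (!b) := by
    funext u
    show Function.update x (b, v) (!x (b, v)) (!b, u) = x (!b, u)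
    rw [Function.update_of_ne]
    intro h
    have := congrArg Prod.fst h
    revert this
    cases b <;> simp
  have heq : ∀ u, hf (flip x (b, v)) b u = if u = v then !x (b, v) else x (b, u) := by
    intro u
    show Function.update x (b, v) (!x (b, v)) (b, u) = _
    by_cases huv : u = v
    · subst huv
      rw [Function.update_self, if_pos rfl]
    · rw [Function.update_of_ne, if_neg huv]
      intro h
      exact huv (congrArg Prod.snd h)
  have hcard : (univ.filter fun u => hf (flip x (b, v)) b u = true).card ≠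
      (univ.filter fun u => hf x b u = true).card := by
    by_cases hxv : x (b, v) = true
    · have : (univ.filter fun u => hf (flip x (b, v)) b u = true) =
          (univ.filter fun u => hf x b u = true).erase v := by
        ext u
        simp only [mem_filter, mem_univ, true_and, mem_erase, heq]
        by_cases huv : u = v
        · subst huv
          simp [hxv]
        · simp [huv, hf]
      have hv' : v ∈ univ.filter fun u => hf x b u = true := mem_filter.2 ⟨mem_univ _, hxv⟩
      rw [this, card_erase_of_mem hv']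
      have : 0 < (univ.filter fun u => hf x b u = true).card := card_pos.2 ⟨v, hv'⟩
      omega
    · have : (univ.filter fun u => hf (flip x (b, v)) b u = true) =
          insert v (univ.filter fun u => hf x b u = true) := by
        ext u
        simp only [mem_filter, mem_univ, true_and, mem_insert, heq]
        by_cases huv : u = v
        · subst huv
          simp [hxv]
        · simp [huv, hf]
      have hv' : v ∉ univ.filter fun u => hf x b u = true := fun h => hxv (mem_filter.1 h).2
      rw [this, card_insert_of_notMem hv']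
      omega
  cases b
  · rw [Bool.not_false] at hne
    rw [hne] at h1
    exact hcard (h1.trans h2.symm)
  · rw [Bool.not_true] at hne
    rw [hne] at h1
    exact hcard (h1.symm.trans h2)

/-- The counting bound. -/
theorem count {k : ℕ} (hk : 1 ≤ k) {ι : Type} [Fintype ι]
    (F : ι → CNF (Bool × Sym2 (Fin (N + l)))) (hF : ∀ i, (F i).Width k)
    (h : ∀ G H : SimpleGraph (Fin (N + l)), Nonempty (G ≃g H) ↔ ∃ i, (F i).Sat (bitsOf G H)) :
    (((2 ^ l).descFactorial N * N.factorial : ℕ) : ℝ) * 2 ^ ((2 * (N * l) : ℝ) / k) ≤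
      Fintype.card ι * 2 ^ (2 * (N * l)) := by
  classical
  have hM : Fintype.card (Vr N l) = 2 * (N * l) := by simp
  have h1 : fam N l ⊆ univ.biUnion fun i => (fam N l).filter fun x => (F i).Sat (ext x) := by
    intro x hx
    obtain ⟨i, hi⟩ := (h _ _).1 (fam_iso hx)
    exact mem_biUnion.2 ⟨i, mem_univ _, mem_filter.2 ⟨hx, hi⟩⟩
  have h2 : ∀ i, (((fam N l).filter fun x => (F i).Sat (ext x)).card : ℝ) *
      2 ^ ((2 * (N * l) : ℝ) / k) ≤ 2 ^ (2 * (N * l)) := by
    intro i
    have := card_sat_le hk (F i) (hF i) vr vr_injective ext ext_vr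
      (fun x y e he => ext_const x y e he) ((fam N l).filter fun x => (F i).Sat (ext x))
      (fun x hx => (mem_filter.1 hx).2)
      (fun x hx v hs => flip_not_iso (mem_filter.1 hx).1 v ((h _ _).2 ⟨i, hs⟩))
    rw [hM] at this
    push_cast at this ⊢
    exact this
  rw [← card_fam]
  have h3 : ((fam N l).card : ℝ) ≤
      ∑ i : ι, (((fam N l).filter fun x => (F i).Sat (ext x)).card : ℝ) := by
    exact_mod_cast (card_le_card h1).trans card_biUnion_le
  calc ((fam N l).card : ℝ) * 2 ^ ((2 * (N * l) : ℝ) / k)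
      ≤ (∑ i : ι, (((fam N l).filter fun x => (F i).Sat (ext x)).card : ℝ)) *
        2 ^ ((2 * (N * l) : ℝ) / k) := by gcongr
    _ = ∑ i : ι, ((((fam N l).filter fun x => (F i).Sat (ext x)).card : ℝ) *
        2 ^ ((2 * (N * l) : ℝ) / k)) := by rw [sum_mul]
    _ ≤ ∑ i : ι, (2 : ℝ) ^ (2 * (N * l)) := sum_le_sum fun i _ => h2 i
    _ = _ := by rw [sum_const, card_univ, nsmul_eq_mul]

end Pool.Agent.R892.KC
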